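import Pool.Agent.K3h21.CB.App3

set_option autoImplicit false

/-!
# Any multipliers `k`: almost primes `2 k p + 1` with one prime `p`

For every `m` there is `K` such that for any `K` multipliers `k ≤ X ^ σ` there are many primes `p` in `(X, 2 X]` for which
`2 k p + 1` has at most `r` prime factors for at least `m` of the `K` multipliers: `r = 3` for `σ < 0.38`, `r = 4` for
`σ < 0.86`, `r = 5` for `σ < 1.34`.
-/

namespace Pool.Agent.Results.MP_2f88e5_nt.AnyMultipliers

/-- `n` has at most `r` prime factors, counted with multiplicity, all of them at least `w`. -/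
def AlmostPrime (r : ℕ) (w : ℝ) (n : ℕ) : Prop :=
  n.primeFactorsList.length ≤ r ∧ ∀ q : ℕ, q.Prime → q ∣ n → w ≤ q

open Classical in
/-- **Any multipliers and one prime.** Let `0 ≤ σ` and `(1 + σ) 25 / 12 < r - 1 / 8`. For every `m` there are `K`, `A`,
`X₀` and `c > 0` such that for all `X ≥ X₀` and every set `S` of at least `K` integers in `[1, X ^ σ]` there are at least
`X / (log X) ^ A` primes `p` in `(X, 2 X]` such that for at least `m` of the `k ∈ S` the number `2 k p + 1` has at most `r`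
prime factors, counted with multiplicity, all of them at least `X ^ c`. -/
theorem result (r : ℕ) (σ : ℝ) (hσ : 0 ≤ σ) (hr : (1 + σ) * (25 / 12) < r - 1 / 8) (m : ℕ) :
    ∃ (K A X₀ : ℕ) (c : ℝ), 0 < c ∧ ∀ X : ℕ, X₀ ≤ X → ∀ S : Finset ℕ, K ≤ S.card →
      (∀ k ∈ S, 1 ≤ k ∧ (k : ℝ) ≤ (X : ℝ) ^ σ) →
      (X : ℝ) / Real.log X ^ A ≤
        (((Finset.Ioc X (2 * X)).filter (fun p : ℕ => p.Prime ∧
          m ≤ (S.filter (fun k => AlmostPrime r ((X : ℝ) ^ c) (2 * k * p + 1))).card)).card : ℝ) := by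
  obtain ⟨K, A, X₀, c, hc, h⟩ := Pool.Agent.K3h21.CB.mult r σ hσ hr m
  refine ⟨K, A, X₀, c, hc, fun X hX S hS hSe => (h X hX S hS hSe).trans ?_⟩
  have hsub := Finset.card_le_card (s := (Finset.Ioc X (2 * X)).filter (fun p : ℕ => p.Prime ∧ ∃ H ⊆ S, H.card = m ∧
      ∀ k ∈ H, Pool.Agent.K3h21.AV.AP r ((X : ℝ) ^ c) (2 * k * p + 1)))
    (t := (Finset.Ioc X (2 * X)).filter (fun p : ℕ => p.Prime ∧
          m ≤ (S.filter (fun k => AlmostPrime r ((X : ℝ) ^ c) (2 * k * p + 1))).card)) (by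
      intro p hp
      rw [Finset.mem_filter] at hp ⊢
      obtain ⟨h1, h2, H, hH, hHc, hall⟩ := hp
      refine ⟨h1, h2, ?_⟩
      rw [← hHc]
      apply Finset.card_le_card
      intro n hn
      rw [Finset.mem_filter]
      exact ⟨hH hn, hall n hn⟩)
  exact_mod_cast hsub

end Pool.Agent.Results.MP_2f88e5_nt.AnyMultipliers
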