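import Pool.Agent.K3h21.LN.Main

set_option autoImplicit false

/-!
# Clusters of almost primes of the form `2 k p + 1` with small `k`, for every large prime `p`

Let `p` be a large prime. Among the admissible `k < 2 p` there are, in every window of the length `p ^ θ`,
`θ > 50 / (24 r - 3)` (`θ = 3 / 4` for `r = 3`), `m` numbers `k` at bounded distance from each other for which
`2 k p + 1` is a product of at most `r` primes.

Method: the sieve of Maynard and Tao with Richert's weights in the slots, in a form which is uniform in the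
modulus and in the position, and Szemerédi's theorem relative to sifted sets.
-/

namespace Pool.Agent.Results.MP_2f88e5_nt.Clusters

open Finset Filter

/-- `k` is admissible for `p`: `1 ≤ k < 2 (p + 1)` and `p ∤ k`. -/
def Admissible (p k : ℕ) : Prop := 1 ≤ k ∧ k < 2 * (p + 1) ∧ ¬ p ∣ k

/-- `n` has at most `r` prime factors, counted with multiplicity, all of them at least `w`. -/
def AlmostPrime (r : ℕ) (w : ℝ) (n : ℕ) : Prop :=
  n.primeFactorsList.length ≤ r ∧ ∀ q : ℕ, q.Prime → q ∣ n → w ≤ q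

/-- **Clusters of almost primes `2 k p + 1` for every large prime `p`.** Let `r ≥ 3` and
`50 / (24 r - 3) < θ ≤ 1`. For every `m` there is `K` such that for every set `S` of at least `K` natural numbers
and every `l` there is `B` such that the following holds for all sufficiently large primes `p` and all natural
numbers `M` with `M + p ^ θ ≤ 2 p`. There are a subset `H` of `S` with `m` elements and natural numbers `n` and
`1 ≤ d ≤ (log p) ^ B` such that all the numbers `k = n + j d + h`, `j < l`, `h ∈ H`, are admissible for `p`,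
`M < k < M + p ^ θ`, and `2 k p + 1` has at most `r` prime factors, all of them at least `p ^ (1 / (2 r))`. -/
theorem result (r : ℕ) (hr : 3 ≤ r) (θ : ℝ) (hθ : 50 / (24 * (r : ℝ) - 3) < θ) (hθ1 : θ ≤ 1) (m : ℕ) :
    ∃ K : ℕ, ∀ S : Finset ℕ, K ≤ S.card → ∀ l : ℕ, ∃ B : ℕ, ∀ᶠ p : ℕ in atTop, p.Prime →
      ∀ M : ℕ, (M : ℝ) + (p : ℝ) ^ θ ≤ 2 * p →
      ∃ H ⊆ S, H.card = m ∧ ∃ n d : ℕ, 1 ≤ d ∧ (d : ℝ) ≤ Real.log p ^ B ∧ ∀ j < l, ∀ h ∈ H,
        Admissible p (n + j * d + h) ∧ M < n + j * d + h ∧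
        ((n + j * d + h : ℕ) : ℝ) < M + (p : ℝ) ^ θ ∧
        AlmostPrime r ((p : ℝ) ^ (1 / (2 * r : ℝ))) (2 * (n + j * d + h) * p + 1) := by
  have hrr : (3 : ℝ) ≤ r := by exact_mod_cast hr
  have hden : 0 < 24 * (r : ℝ) - 3 := by linarith
  obtain ⟨θ', h1, h2⟩ := exists_between hθ
  have hθ'0 : 0 < θ' := lt_trans (by positivity) h1
  obtain ⟨θ'', h3, h4⟩ := exists_between h1
  have hθ''0 : 0 < θ'' := lt_trans (by positivity) h3
  have h5 : 25 / (24 * (r : ℝ) - 3) < θ'' / 2 := by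
    rw [div_lt_iff₀ hden] at h3 ⊢
    linarith
  obtain ⟨K, hK⟩ := Pool.Agent.K3h21.LN.clusters r (by omega) (θ'' / 2) h5 (by linarith) m
  refine ⟨K, fun S hS l => ?_⟩
  obtain ⟨B, hB⟩ := hK S hS (l + 1)
  refine ⟨B + 1, ?_⟩
  have hT : Tendsto (fun p : ℕ => 5 * p ^ 2) atTop atTop :=
    (tendsto_pow_atTop (by norm_num)).const_mul_atTop' (by norm_num)
  have e1 := hT.eventually hB
  have hN := tendsto_natCast_atTop_atTop (R := ℝ)
  have e2 : ∀ᶠ p : ℕ in atTop, (4 : ℝ) ^ B ≤ Real.log p :=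
    (Real.tendsto_log_atTop.comp hN).eventually_ge_atTop _
  have e3 : ∀ᶠ p : ℕ in atTop, (4 : ℝ) ≤ (p : ℝ) ^ (θ - θ') :=
    ((tendsto_rpow_atTop (by linarith)).comp hN).eventually_ge_atTop _
  have e4 : ∀ᶠ p : ℕ in atTop, (8 : ℝ) ≤ (p : ℝ) ^ (θ' - θ'') :=
    ((tendsto_rpow_atTop (by linarith)).comp hN).eventually_ge_atTop _
  filter_upwards [e1, e2, e3, e4, eventually_ge_atTop 10] with p hx hlog hpow hpow2 hp10 hp M hM
  have hpr : (10 : ℝ) ≤ p := by exact_mod_cast hp10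
  have hp0 : (0 : ℝ) < p := by linarith
  have hp1 : (1 : ℝ) ≤ p := by linarith
  have hs1 : (p : ℝ) ^ θ = (p : ℝ) ^ θ' * (p : ℝ) ^ (θ - θ') := by
    rw [← Real.rpow_add hp0]
    congr 1
    ring
  have hs2 : (p : ℝ) ^ θ' = (p : ℝ) ^ θ'' * (p : ℝ) ^ (θ' - θ'') := by
    rw [← Real.rpow_add hp0]
    congr 1
    ring
  have ht1 : (1 : ℝ) ≤ (p : ℝ) ^ θ'' := Real.one_le_rpow hp1 hθ''0.le
  have ht2 : 8 * (p : ℝ) ^ θ'' ≤ (p : ℝ) ^ θ' := by rw [hs2]; nlinarith
  have ht3 : 4 * (p : ℝ) ^ θ' ≤ (p : ℝ) ^ θ := by rw [hs1]; nlinarith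
  -- the length of the window
  obtain ⟨L, hL⟩ : ∃ L : ℕ, L = ⌊(p : ℝ) ^ θ'⌋₊ - 1 := ⟨_, rfl⟩
  have hg1 : (⌊(p : ℝ) ^ θ'⌋₊ : ℝ) ≤ (p : ℝ) ^ θ' := Nat.floor_le (by positivity)
  have hg2 : (p : ℝ) ^ θ' < ⌊(p : ℝ) ^ θ'⌋₊ + 1 := Nat.lt_floor_add_one _
  have hg4 : 1 ≤ ⌊(p : ℝ) ^ θ'⌋₊ := Nat.le_floor (by push_cast; linarith)
  have hLr : (L : ℝ) = ⌊(p : ℝ) ^ θ'⌋₊ - 1 := by
    rw [hL, Nat.cast_sub hg4, Nat.cast_one]
  -- a window without a multiple of `p`
  obtain ⟨M', hM1, hM2, hM3⟩ : ∃ M' : ℕ, M ≤ M' ∧ (M' : ℝ) + (p : ℝ) ^ θ' ≤ M + (p : ℝ) ^ θ ∧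
      (p ≤ M' ∨ (M' : ℝ) + (p : ℝ) ^ θ' ≤ p) := by
    by_cases hc1 : p ≤ M
    · exact ⟨M, le_rfl, by linarith, Or.inl hc1⟩
    · by_cases hc2 : (M : ℝ) + (p : ℝ) ^ θ' ≤ p
      · exact ⟨M, le_rfl, by linarith, Or.inr hc2⟩
      · push Not at hc1 hc2
        exact ⟨p, hc1.le, by linarith, Or.inl le_rfl⟩
  have hYpow : ((5 * p ^ 2 : ℕ) : ℝ) ^ (θ'' / 2) ≤ 5 * (p : ℝ) ^ θ'' := by
    push_cast
    rw [Real.mul_rpow (by norm_num) (by positivity)]
    have h6 : ((p : ℝ) ^ 2) ^ (θ'' / 2) = (p : ℝ) ^ θ'' := by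
      rw [← Real.rpow_natCast, ← Real.rpow_mul hp0.le]
      congr 1
      push_cast
      ring
    rw [h6]
    apply mul_le_mul_of_nonneg_right _ (by positivity)
    calc (5 : ℝ) ^ (θ'' / 2) ≤ 5 ^ (1 : ℝ) :=
          Real.rpow_le_rpow_of_exponent_le (by norm_num) (by linarith)
      _ = 5 := Real.rpow_one _
  have hML : ((M' + L : ℕ) : ℝ) < 2 * p := by
    push_cast
    linarith
  obtain ⟨H, hH, hHc, n, d, hd1, hd2, hall⟩ := hx (2 * p) 1 M' L (by omega)
    (Nat.coprime_one_left _) (by rw [hLr]; linarith) (by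
      have h6 : M' + L < 2 * p := by exact_mod_cast hML
      have h7 : 2 * p * (M' + L) ≤ 2 * p * (2 * p) := Nat.mul_le_mul_left _ h6.le
      have h8 : 1 ≤ p ^ 2 := Nat.one_le_pow _ _ (by omega)
      have h9 : 2 * p * (2 * p) = 4 * p ^ 2 := by ring
      omega)
  have hlY : Real.log ((5 * p ^ 2 : ℕ) : ℝ) ≤ 4 * Real.log p := by
    calc Real.log ((5 * p ^ 2 : ℕ) : ℝ) ≤ Real.log ((p : ℝ) ^ 4) :=
          Real.log_le_log (by positivity) (by
            push_cast
            have e5 : (p : ℝ) ^ 4 = (p : ℝ) ^ 2 * (p : ℝ) ^ 2 := by ring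
            have e6 : (100 : ℝ) ≤ (p : ℝ) ^ 2 := by nlinarith
            rw [e5]
            nlinarith)
      _ = 4 * Real.log p := by rw [Real.log_pow]; push_cast; ring
  have hl0 : 0 ≤ Real.log p := Real.log_nonneg (by linarith)
  refine ⟨H, hH, hHc, n, d, hd1, ?_, fun j hj h hh => ?_⟩
  · calc (d : ℝ) ≤ Real.log ((5 * p ^ 2 : ℕ) : ℝ) ^ B := hd2
      _ ≤ (4 * Real.log p) ^ B := pow_le_pow_left₀ (Real.log_nonneg (by
          push_cast
          nlinarith)) hlY B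
      _ = 4 ^ B * Real.log p ^ B := mul_pow _ _ _
      _ ≤ Real.log p * Real.log p ^ B := by gcongr
      _ = Real.log p ^ (B + 1) := by rw [pow_succ]; ring
  · obtain ⟨hlow, hrest⟩ := hall j (by omega)
    obtain ⟨a1, a2, a3⟩ := hrest h hh
    have hk1 : M' < n + j * d + h := by omega
    have hk2 : ((n + j * d + h : ℕ) : ℝ) ≤ M' + L := by exact_mod_cast a1
    have hk3 : ((n + j * d + h : ℕ) : ℝ) < M' + (p : ℝ) ^ θ' := by linarith
    have hk4 : n + j * d + h < 2 * p := by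
      have h6 : M' + L < 2 * p := by exact_mod_cast hML
      omega
    have e : 2 * (n + j * d + h) * p + 1 = 2 * p * (n + j * d + h) + 1 := by ring
    refine ⟨⟨by omega, by omega, fun hdvd => ?_⟩, by omega, by linarith, ?_, fun q hq hqd => ?_⟩
    · obtain ⟨c, hc⟩ := hdvd
      have hc1 : c ≠ 0 := by
        rintro rfl
        omega
      have hc2 : c < 2 := by
        by_contra hcon
        have : p * 2 ≤ p * c := Nat.mul_le_mul_left _ (by omega)
        omega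
      have hc3 : c = 1 := by omega
      rw [hc3, mul_one] at hc
      rcases hM3 with h6 | h6
      · omega
      · rw [hc] at hk3
        linarith
    · rw [e]
      exact a2
    · rw [e] at hqd
      refine le_trans ?_ (a3 q hq hqd)
      have h6 : (p : ℝ) ^ (1 / (2 * r : ℝ)) = ((p : ℝ) ^ 2) ^ (1 / (4 * r : ℝ)) := by
        rw [← Real.rpow_natCast, ← Real.rpow_mul hp0.le]
        congr 1
        push_cast
        field_simp
        norm_num
      rw [h6]
      apply Real.rpow_le_rpow (by positivity) _ (by positivity)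
      push_cast
      nlinarith

end Pool.Agent.Results.MP_2f88e5_nt.Clusters
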