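import Pool.Agent.K3h86.LP.Main
import Pool.Agent.K3h86.LP.Sieve
import Pool.Agent.K3h17.LP.Cheb
import Pool.Agent.K3h16.LP.Hyp
import Pool.Agent.K3h67.LP.Blocks
import Pool.Agent.K3h77.LP.Asy

set_option autoImplicit false

/-!
# For every large prime `p` many of the numbers `2 k p + 1`, `k < 2 (p + 1)`, have a prime factor larger than `p ^ (6 / 5)`

Let `δ < √(3/2) - 1 = 0.2247...`. For EVERY sufficiently large prime `p` a positive proportion of the admissible `k`
is such that `2 k p + 1` has a prime factor `l > p ^ (1 + δ)`. So `2 k p + 1 = m l`, where `l` is a prime and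
`m < 4 (p + 1) ^ 2 / p ^ (1 + δ)`; the question asks for `m = 1`.

Proof (Chebyshev's method). On the average over `k` the prime factors `l < 2 p` contribute `log p` to
`log (2 k p + 1)`, and those with `l > 2 p` contribute `log p` too. The pairs `(m, l)` with
`2 p < l ≤ p ^ (1 + δ)`, `m l ≡ 1 (mod 2 p)` and `m l < 4 p ^ 2` are points of a modular hyperbola; by Weil's bound
for Kloosterman sums these points, and those with `d ∣ l`, `d ≤ p ^ (1 / 2 - ε)`, are well distributed in boxes, on the average over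
`m`, and Selberg's sieve with the level `p ^ (1 / 2 - ε)` shows that they contribute less than `log p` on the average
(at most `(4 δ ^ 2 + 8 δ + ε) / 2` times `log p`).
-/

namespace Pool.Agent.Results.MP_2f88e5_nt.LargePrimeFactor

open Finset

/-- `k` is admissible for `p`: `1 ≤ k < 2 (p + 1)` and `p ∤ k`. -/
def Admissible (p k : ℕ) : Prop := 1 ≤ k ∧ k < 2 * (p + 1) ∧ ¬ p ∣ k

/-- **Large prime factors of `2 k p + 1` for every large prime `p`.** Let `δ < √(3/2) - 1`. There is `c > 0` such that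
for every sufficiently large prime `p` there are at least `c p` admissible `k` for which `2 k p + 1` has a prime factor
larger than `p ^ (1 + δ)`. -/
theorem result (δ : ℝ) (hδ : δ < Real.sqrt (3 / 2) - 1) :
    ∃ c : ℝ, 0 < c ∧ ∃ p₀ : ℕ, ∀ p : ℕ, p.Prime → p₀ ≤ p →
      c * p ≤ ({k : ℕ | Admissible p k ∧
        ∃ l : ℕ, l.Prime ∧ l ∣ 2 * k * p + 1 ∧ (p : ℝ) ^ (1 + δ) < l}.ncard : ℝ) := by
  classical
  set η : ℝ := max δ (1 / 10) with hη
  have hη0 : 0 < η := lt_of_lt_of_le (by norm_num) (le_max_right _ _)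
  have hsq : Real.sqrt (3 / 2) ^ 2 = 3 / 2 := Real.sq_sqrt (by norm_num)
  have hs : (11 / 10 : ℝ) < Real.sqrt (3 / 2) := by
    rw [Real.lt_sqrt (by norm_num)]; norm_num
  have hη1 : η < Real.sqrt (3 / 2) - 1 := max_lt hδ (by linarith)
  have hη2 : η ^ 2 + 2 * η < 1 / 2 := by nlinarith
  obtain ⟨c, hc, p₀, h⟩ := Pool.Agent.K3h86.LP.main_pos Pool.Agent.K3h17.LP.t_CHEB
    (Pool.Agent.K3h86.LP.sieve_of_hyp Pool.Agent.K3h16.LPHyp.t_HYP) Pool.Agent.K3h67.LP.t_BLOCKS
    Pool.Agent.K3h77.LP.t_ASY η hη0 hη2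
  refine ⟨c, hc, p₀, fun p hp hpp => (h p hp hpp).trans ?_⟩
  have hp1 : (1 : ℝ) ≤ p := by exact_mod_cast hp.one_lt.le
  have hfin : {k : ℕ | Admissible p k ∧
      ∃ l : ℕ, l.Prime ∧ l ∣ 2 * k * p + 1 ∧ (p : ℝ) ^ (1 + δ) < l}.Finite :=
    (Set.finite_Iio (2 * (p + 1))).subset fun k hk => hk.1.2.1
  rw [Set.ncard_eq_toFinset_card _ hfin]
  apply Nat.cast_le.2
  apply card_le_card
  intro k hk
  rw [Set.Finite.mem_toFinset]
  unfold Pool.Agent.K3h86.LP.Bd at hk
  rw [mem_sdiff, mem_filter, not_and, not_not] at hk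
  obtain ⟨l, hl, hld, hlp⟩ := hk.2 hk.1
  have hk1 := hk.1
  unfold Pool.Agent.K3h86.LP.KK at hk1
  rw [mem_erase, mem_Icc] at hk1
  refine ⟨⟨hk1.2.1, by omega, ?_⟩, l, hl, hld, lt_of_le_of_lt ?_ hlp⟩
  · rintro ⟨t, rfl⟩
    have hp0 := hp.pos
    have h1 : t ≠ 1 := fun h => hk1.1 (by rw [h, mul_one])
    have h0 : t ≠ 0 := by
      rintro rfl
      simp at hk1
    have h2 : 2 ≤ t := by omega
    have : p * 2 ≤ p * t := Nat.mul_le_mul_left p h2
    omega
  · exact Real.rpow_le_rpow_of_exponent_le hp1 (by linarith [le_max_left δ (1 / 10)])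

end Pool.Agent.Results.MP_2f88e5_nt.LargePrimeFactor
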