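import Pool.Agent.K3h31.LP.Fin

/-!
# Almost primes `2 k p + 1` with `k` at most a power of `log p`, for almost all primes `p`

For a prime `p` let `multipliers p x w` be the set of the `k ≤ x` such that `2 k p + 1` has at most
three prime factors (with multiplicity), all of them at least `w`.

**Theorem.** There are `δ, C > 0` such that for all large `P` and all `x₀ ≥ 1`: all primes `p ≤ P` with
at most `C P (log P)^9 / x₀` exceptions have at least `δ x / log P` multipliers `k ≤ x` with `2 k p + 1`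
the product of at most three primes `≥ P^(1/11)`, for ALL `x` with `x₀ ≤ x ≤ P^(1/20)`.

(This is the right order of magnitude of the number of such `k`.) So, with `x₀` a power of `log P`: all
but `O(P / (log P)^2)` of the primes `p ≤ P` have some `k ≤ (log p)^11` such that `2 k p + 1` has at
most three prime factors; and with `x₀ = P^ε` there are at most `P^(1 - ε)(log P)^O(1)` exceptions.

Proof. The weighted linear sieve (of the starting repository) is applied to the numbers `2 k p + 1`,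
`k ≤ x`, with the level `P^(1/2 - c)`. Let `R_d(n)` be the difference between the number of the `k ≤ x`
with `d ∣ 2 k n + 1` and its expected value `x / d` (`0` if `d` and `2 n` are not coprime). The second
moment of `∑ c_d R_d(n)` over `n ≤ P` is computed by complete periods: for `g = (d, d')` fixed and
`n` modulo `g` fixed, `R_d` and `R_d'` are independent, and the mean value of `R_d` is
`#{k ≤ x : g ∣ 2 k n + 1, (k, d / g) = 1}` minus its expected value, hence `O(τ(d / g))`, and small on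
average over `n` modulo `g` if `g > x`. The sum over `d`, `d'` is `O(P x (log P)^O(1))`, so the
remainder is smaller than the main term for all but `P (log P)^O(1) / x` of the `n`.
-/

set_option autoImplicit false

namespace Pool.Agent.Results.MP_2f88e5_nt.TinyMultipliers

/-- the `k ≤ x` such that `2 k p + 1` has at most three prime factors (counted with multiplicity), all
of them at least `w` -/
def multipliers (p x : ℕ) (w : ℝ) : Set ℕ :=
  {k : ℕ | 1 ≤ k ∧ k ≤ x ∧ (2 * k * p + 1).primeFactorsList.length ≤ 3 ∧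
    ∀ q : ℕ, q.Prime → q ∣ 2 * k * p + 1 → w ≤ q}

/-- **Almost primes `2 k p + 1` with tiny `k` for almost all primes `p`.** -/
theorem result :
    (∃ δ C : ℝ, 0 < δ ∧ 0 < C ∧ ∃ P₀ : ℕ, ∀ P : ℕ, P₀ ≤ P → ∀ x₀ : ℕ, 1 ≤ x₀ →
      ({p : ℕ | p ≤ P ∧ p.Prime ∧ ∃ x : ℕ, x₀ ≤ x ∧ (x : ℝ) ≤ (P : ℝ) ^ (1 / 20 : ℝ) ∧
        ((multipliers p x ((P : ℝ) ^ (1 / 11 : ℝ))).ncard : ℝ) < δ * x / Real.log P}.ncard : ℝ) ≤
        C * P * Real.log P ^ 9 / x₀) ∧
    ∃ C : ℝ, ∀ P : ℕ, 2 ≤ P →
      ({p : ℕ | p ≤ P ∧ p.Prime ∧ ∀ k : ℕ, 1 ≤ k → (k : ℝ) ≤ Real.log p ^ 11 →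
        3 < (2 * k * p + 1).primeFactorsList.length}.ncard : ℝ) ≤ C * P / Real.log P ^ 2 := by
  refine ⟨?_, Pool.Agent.K3h31.LP.almost_all⟩
  obtain ⟨δ, C, hδ, hC, P₀, H⟩ := Pool.Agent.K3h31.LP.all_x
  refine ⟨δ, C, hδ, hC, P₀, fun P hP x₀ hx₀ => ?_⟩
  obtain ⟨B, hB1, hB2⟩ := H P hP x₀ hx₀
  have hgood : ∀ (p x : ℕ) (w : ℝ),
      (multipliers p x w).ncard = (Pool.Agent.K3h31.LP.good p w x).card := by
    intro p x w
    rw [← Set.ncard_coe_finset]
    congr 1
    ext k
    rw [Finset.mem_coe, Pool.Agent.K3h31.LP.mem_good]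
    show (1 ≤ k ∧ k ≤ x ∧ (2 * k * p + 1).primeFactorsList.length ≤ 3 ∧
      ∀ q : ℕ, q.Prime → q ∣ 2 * k * p + 1 → w ≤ q) ↔ _
    tauto
  have hsub : {p : ℕ | p ≤ P ∧ p.Prime ∧ ∃ x : ℕ, x₀ ≤ x ∧ (x : ℝ) ≤ (P : ℝ) ^ (1 / 20 : ℝ) ∧
        ((multipliers p x ((P : ℝ) ^ (1 / 11 : ℝ))).ncard : ℝ) < δ * x / Real.log P} ⊆ (B : Set ℕ) := by
    rintro p ⟨hpP, hpp, x, hx1, hx2, hx3⟩
    rw [Finset.mem_coe]
    by_contra hB
    have := hB2 p hpP hpp hB x hx1 hx2
    rw [hgood] at hx3
    linarith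
  have h1 := Set.ncard_le_ncard hsub (Finset.finite_toSet B)
  rw [Set.ncard_coe_finset] at h1
  calc _ ≤ (B.card : ℝ) := by exact_mod_cast h1
    _ ≤ _ := hB1
    _ = _ := by ring

end Pool.Agent.Results.MP_2f88e5_nt.TinyMultipliers
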